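import Pool.Agent.Helper61.PV.St

set_option autoImplicit false

/-! Project PV (MP_d466de_nt), module Top. -/

namespace Pool.Agent.Helper41.PV

open Pool.Agent.Helper61.PV Finset

theorem card_sub_le {α : Type} (s : Finset α) (p : α → Prop) (h : ∀ x, p x → x ∈ s) :
    Nat.card {x : α // p x} ≤ #s := by
  have h1 : Nat.card ({x : α | p x} : Set α) ≤ Nat.card (s : Set α) :=
    Nat.card_mono s.finite_toSet (fun x hx => h x hx)
  rw [Nat.card_coe_set_eq (s : Set α), Set.ncard_coe_finset] at h1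
  exact h1

theorem hTop (hFib : StFib) : StTop := by
  intro d H κ hκ
  have hl : ¬ ((Fin.last d : Fin (d + 1)) : ℕ) < d := by simp
  rcases Nat.eq_zero_or_pos H with hH | hH
  · have h1 : IsEmpty {c : Fin (d + 1) → ℤ // c ∈ Bxx d H ∧ ¬ κ * H ≤ c (Fin.last d)} := by
      refine ⟨fun c => ?_⟩
      have h2 := c.2.1
      unfold Bxx Bx at h2
      rw [Fintype.mem_piFinset] at h2
      have h3 := h2 (Fin.last d)
      simp only [if_neg hl, mem_Ico, hH, Nat.cast_zero, add_zero] at h3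
      omega
    rw [Nat.card_of_isEmpty]
    simp only [Nat.cast_zero]
    positivity
  have hHr : (0 : ℝ) < H := by exact_mod_cast hH
  have hf := hFib d (fun i => if (i : ℕ) < d then -(H : ℤ) else 1)
    (fun i => if (i : ℕ) < d then 2 * H + 1 else H) (Fin.last d)
    (fun c => ¬ κ * H ≤ c (Fin.last d))
  simp only [Function.update_self, if_neg hl] at hf
  have h1 : ∀ g ∈ Bxx d H, ((Nat.card {n : ℤ // n ∈ Ico (1 : ℤ) (1 + H) ∧ ¬ κ * H ≤ n} : ℕ) : ℝ) ≤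
      κ * H := by
    intro g _
    have h2 : Nat.card {n : ℤ // n ∈ Ico (1 : ℤ) (1 + H) ∧ ¬ κ * H ≤ n} ≤
        #(Ico (1 : ℤ) ⌈κ * H⌉) := by
      refine card_sub_le _ _ fun n hn => ?_
      rw [mem_Ico] at hn ⊢
      refine ⟨hn.1.1, ?_⟩
      rw [Int.lt_ceil]
      exact not_le.1 hn.2
    rw [Int.card_Ico] at h2
    have h3 : (0 : ℤ) < ⌈κ * (H : ℝ)⌉ := Int.ceil_pos.2 (by positivity)
    have h4 : ((⌈κ * (H : ℝ)⌉ - 1).toNat : ℤ) = ⌈κ * (H : ℝ)⌉ - 1 := Int.toNat_of_nonneg (by omega)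
    have h5 : ((⌈κ * (H : ℝ)⌉ - 1).toNat : ℝ) = (⌈κ * (H : ℝ)⌉ : ℝ) - 1 := by
      have := congrArg (fun z : ℤ => (z : ℝ)) h4
      simpa using this
    have h6 : (Nat.card {n : ℤ // n ∈ Ico (1 : ℤ) (1 + H) ∧ ¬ κ * H ≤ n} : ℝ) ≤
        ((⌈κ * (H : ℝ)⌉ - 1).toNat : ℝ) := by exact_mod_cast h2
    have h7 := Int.ceil_lt_add_one (κ * (H : ℝ))
    linarith
  have h8 : ((∑ g ∈ Bxx d H, Nat.card {n : ℤ // n ∈ Ico (1 : ℤ) (1 + H) ∧ ¬ κ * H ≤ n} : ℕ) : ℝ) ≤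
      #(Bxx d H) * (κ * H) := by
    push_cast
    rw [← nsmul_eq_mul, ← sum_const]
    exact sum_le_sum h1
  have h9 : ((∑ g ∈ Bxx d H, Nat.card {n : ℤ // n ∈ Ico (1 : ℤ) (1 + H) ∧ ¬ κ * H ≤ n} : ℕ) : ℝ) =
      H * (Nat.card {c : Fin (d + 1) → ℤ // c ∈ Bxx d H ∧ ¬ κ * H ≤ c (Fin.last d)} : ℝ) := by
    have := congrArg (fun z : ℕ => (z : ℝ)) hf
    simp only [Nat.cast_mul] at this
    exact this
  rw [h9] at h8
  have h10 : (H : ℝ) * (Nat.card {c : Fin (d + 1) → ℤ // c ∈ Bxx d H ∧ ¬ κ * H ≤ c (Fin.last d)} : ℝ) ≤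
      H * (κ * #(Bxx d H)) := by
    linarith
  exact le_of_mul_le_mul_left h10 hHr

end Pool.Agent.Helper41.PV
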